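import Pool.Agent.H364Z.Cx

set_option autoImplicit false

open Set Complex
open scoped Real

namespace Pool.Agent.Results.MP_557074_an.NoRealCrit

/-- `(μ, ω)` lies in `C_l`: the monodromy of the Riccati equation along the unit circle
`z = exp (i τ)`, `0 ≤ τ ≤ 2π`, fixes the initial value of every solution without poles on the
circle.  The equation is written in the variable `τ`, so that `dΦ/dτ = i z dΦ/dz`. -/
def InC (l : ℤ) (μ ω : ℂ) : Prop :=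
  μ ≠ 0 ∧ ω ≠ 0 ∧ ∀ Φ : ℝ → ℂ,
    (∀ τ ∈ Icc (0 : ℝ) (2 * π), HasDerivAt Φ
      (I * (((l : ℂ) + μ * (exp (I * τ) + (exp (I * τ))⁻¹)) * Φ τ - (Φ τ ^ 2 - 1) / (2 * I * ω))) τ) →
    Φ (2 * π) = Φ 0

theorem result (l : ℤ) (U : Set ℂ) (hU : IsOpen U) (μ ω : ℂ → ℂ)
    (hμ : DifferentiableOn ℂ μ U) (hω : DifferentiableOn ℂ ω U)
    (hinj : InjOn (fun t => (μ t, ω t)) U) (hC : ∀ t ∈ U, InC l (μ t) (ω t))
    (p : ℂ) (hp : p ∈ U) (h₁ : (μ p).im = 0) (h₂ : (ω p).im = 0) : deriv ω p ≠ 0 := by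
  refine H364Z.no_crit (l := l) hU hμ hω hinj (fun t ht Φ hΦ => (hC t ht).2.2 Φ fun τ hτ => ?_)
    hp (hC p hp).1 (hC p hp).2.1 h₁ h₂
  refine (hΦ τ hτ).congr_deriv ?_
  have h0 := (hC t ht).2.1
  have e : exp (I * τ) + (exp (I * τ))⁻¹ = 2 * (Real.cos τ : ℂ) := by
    rw [← exp_neg, ofReal_cos, two_cos, mul_comm I, neg_mul]
  rw [e]
  push_cast
  field_simp

end Pool.Agent.Results.MP_557074_an.NoRealCrit
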